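import Pool.Agent.H316.EM.Stm2

/-!
# Two leaves of project EM (MP_e2f787_al): finite orbits of maximal ideals, ascending chain condition
-/

set_option autoImplicit false

namespace Pool.Agent.H338

open Pool.Agent.H316.EM

/-- **ORB.** -/
theorem em_orb : Pool.Agent.H316.EM.S_ORB := by
  intro R _ _ _ σ m hm
  let : Field (R ⧸ m) := Ideal.Quotient.field m
  have : Algebra.FiniteType (ZMod 2) (R ⧸ m) :=
    Algebra.FiniteType.of_surjective (Ideal.Quotient.mkₐ (ZMod 2) m)
      (Ideal.Quotient.mkₐ_surjective (ZMod 2) m)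
  have : Module.Finite (ZMod 2) (R ⧸ m) := finite_of_finite_type_of_isJacobsonRing (ZMod 2) (R ⧸ m)
  have : Finite (R ⧸ m) := Module.finite_of_finite (ZMod 2)
  obtain ⟨S, hS⟩ := (inferInstance : Algebra.FiniteType (ZMod 2) R).out
  have : Finite (R →ₐ[ZMod 2] (R ⧸ m)) := by
    refine Finite.of_injective (fun (f : R →ₐ[ZMod 2] (R ⧸ m)) => fun s : S => f s) ?_
    intro f g hfg
    apply AlgHom.ext_of_adjoin_eq_top hS
    intro x hx
    exact congrFun hfg ⟨x, hx⟩
  let F : ℕ → (R →ₐ[ZMod 2] (R ⧸ m)) := fun i =>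
    { ((Ideal.Quotient.mk m).comp ((σ ^ i : R ≃+* R) : R →+* R)) with
      commutes' := fun r => by
        have : (((Ideal.Quotient.mk m).comp ((σ ^ i : R ≃+* R) : R →+* R)).comp
          (algebraMap (ZMod 2) R)) = algebraMap (ZMod 2) (R ⧸ m) := RingHom.ext_zmod _ _
        exact RingHom.congr_fun this r }
  have hF : ∀ i x, F i x = Ideal.Quotient.mk m ((σ ^ i) x) := fun i x => rfl
  obtain ⟨i, j, hij, h⟩ := Finite.exists_ne_map_eq_of_infinite F
  have key : ∀ i j : ℕ, i < j → F i = F j → ∃ j : ℕ, 0 < j ∧ ∀ r, r ∈ m ↔ (σ ^ j) r ∈ m := by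
    intro i j hij h
    refine ⟨j - i, by omega, fun r => ?_⟩
    have h1 := congrArg (fun f => f ((σ ^ i).symm r)) h
    simp only [hF] at h1
    have h2 : (σ ^ j) ((σ ^ i).symm r) = (σ ^ (j - i)) r := by
      have h3 : j = (j - i) + i := by omega
      conv_lhs => rw [h3, pow_add]
      show (σ ^ (j - i)) ((σ ^ i) ((σ ^ i).symm r)) = _
      rw [RingEquiv.apply_symm_apply]
    rw [RingEquiv.apply_symm_apply, h2] at h1
    rw [← Ideal.Quotient.eq_zero_iff_mem, ← Ideal.Quotient.eq_zero_iff_mem, h1]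
  rcases Nat.lt_or_gt_of_ne hij with h1 | h1
  · exact key i j h1 h
  · exact key j i h1 h.symm

theorem acc_aux (L V : Type) [CommGroup L] [Group.FG L] [AddCommGroup V] [Module (ZMod 2) V]
    (ρ : L →* (V ≃ₗ[ZMod 2] V)) (S : Finset V)
    (hS : Submodule.span (ZMod 2) {x : V | ∃ l : L, ∃ s ∈ S, x = ρ l s} = ⊤)
    (f : ℕ → Submodule (ZMod 2) V) (hf : Monotone f) (hL : ∀ n, ∀ l : L, ∀ x ∈ f n, ρ l x ∈ f n) :
    ∃ n, ∀ m, n ≤ m → f m = f n := by
  have : Monoid.FG L := Group.fg_iff_monoid_fg.1 inferInstance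
  have : Algebra.FiniteType (ZMod 2) (MonoidAlgebra (ZMod 2) L) := inferInstance
  have : IsNoetherianRing (MonoidAlgebra (ZMod 2) L) :=
    Algebra.FiniteType.isNoetherianRing (ZMod 2) _
  let ρ0 : L →* Module.End (ZMod 2) V :=
    { toFun := fun l => (ρ l : V →ₗ[ZMod 2] V)
      map_one' := by rw [map_one]; rfl
      map_mul' := fun a b => by rw [map_mul]; rfl }
  let ρ1 : MonoidAlgebra (ZMod 2) L →ₐ[ZMod 2] Module.End (ZMod 2) V :=
    MonoidAlgebra.lift (ZMod 2) (Module.End (ZMod 2) V) L ρ0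
  let : Module (MonoidAlgebra (ZMod 2) L) V := Module.compHom V ρ1.toRingHom
  have hsm : ∀ (a : MonoidAlgebra (ZMod 2) L) (v : V), a • v = ρ1 a v := fun a v => rfl
  have hof : ∀ (l : L) (v : V), (MonoidAlgebra.of (ZMod 2) L l) • v = ρ l v := by
    intro l v
    rw [hsm]
    simp only [ρ1, MonoidAlgebra.lift_of]
    rfl
  have hc : ∀ (c : ZMod 2) (v : V), (algebraMap (ZMod 2) (MonoidAlgebra (ZMod 2) L) c) • v = c • v := by
    intro c v
    rw [hsm, AlgHom.commutes]
    rfl
  have : Module.Finite (MonoidAlgebra (ZMod 2) L) V := by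
    refine ⟨⟨S, ?_⟩⟩
    rw [eq_top_iff]
    intro v _
    have hv : v ∈ Submodule.span (ZMod 2) {x : V | ∃ l : L, ∃ s ∈ S, x = ρ l s} := by
      rw [hS]; trivial
    induction hv using Submodule.span_induction with
    | mem x hx =>
      obtain ⟨l, s, hs, rfl⟩ := hx
      rw [← hof]
      exact Submodule.smul_mem _ _ (Submodule.subset_span hs)
    | zero => exact Submodule.zero_mem _
    | add x y _ _ hx hy => exact Submodule.add_mem _ (hx trivial) (hy trivial)
    | smul c x _ hx =>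
      rw [← hc]
      exact Submodule.smul_mem _ _ (hx trivial)
  have : IsNoetherian (MonoidAlgebra (ZMod 2) L) V := inferInstance
  let g : ℕ → Submodule (MonoidAlgebra (ZMod 2) L) V := fun n =>
    { carrier := f n
      add_mem' := fun ha hb => (f n).add_mem ha hb
      zero_mem' := (f n).zero_mem
      smul_mem' := by
        intro a v hv
        induction a using MonoidAlgebra.induction_on with
        | of l =>
          rw [hof]
          exact hL n l v hv
        | add a b ha hb =>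
          rw [add_smul]
          exact (f n).add_mem ha hb
        | smul c a ha =>
          rw [Algebra.smul_def, mul_smul, hc]
          exact (f n).smul_mem c ha }
  have hg : ∀ n x, x ∈ g n ↔ x ∈ f n := fun n x => Iff.rfl
  have hgm : Monotone g := fun a b hab x hx => hf hab hx
  obtain ⟨n, hn⟩ := monotone_stabilizes_iff_noetherian.2 ‹IsNoetherian (MonoidAlgebra (ZMod 2) L) V›
    ⟨g, hgm⟩
  refine ⟨n, fun m hm => ?_⟩
  ext x
  rw [← hg, ← hg]
  have := hn m hm
  have h2 : g n = g m := this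
  rw [h2]

/-- **ACC.** -/
theorem em_acc : Pool.Agent.H316.EM.S_ACC := by
  intro k V _ _ D f hf hL
  let : CommGroup D.L :=
    { (inferInstance : Group D.L) with
      mul_comm := fun a b => Subtype.ext (D.Lcomm a a.2 b b.2) }
  have : Group.FG D.L := (Group.fg_iff_subgroup_fg D.L).2 D.Lfg
  obtain ⟨S, hS⟩ := D.fg
  refine acc_aux D.L V D.L.subtype S ?_ f hf (fun n l x hx => hL n l l.2 x hx)
  rw [← hS]
  congr 1
  ext x
  constructor
  · rintro ⟨l, s, hs, rfl⟩
    exact ⟨l, l.2, s, hs, rfl⟩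
  · rintro ⟨l, hl, s, hs, rfl⟩
    exact ⟨⟨l, hl⟩, s, hs, rfl⟩

end Pool.Agent.H338
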